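import Mathlib
import Pool.Agent.R958.HamC
import Pool.Agent.K6.H74.HamFinal

/-!
# No gap between planes and the whole graph for `d = 4`, `θ = 3`

Setting (from `Pool/Agent/R958/HamA.lean`).  `V n d` is the vertex set `[n]^d` of the Hamming torus
`H(n,d)`; two vertices are adjacent iff their Hamming distance is one.  `step θ` is one round of
bootstrap percolation with threshold `θ`, `FinalOpen θ ω v` says that `v` is open in some iterate,
and `SubgraphOpen θ i ω` says that some `i`-dimensional subgraph has all its vertices finally open.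
`law n d p` is the product Bernoulli(`p`) law of the initial configuration, and
`IsCritical n d θ i p` says that `p ∈ [0,1]` and that the probability of `SubgraphOpen θ i` is
exactly one half, so that `p` is the `p_c(i,d;θ,n)` of the problem.

For `d = 4` and `θ = 3` the critical values exist and are unique, and for all large `n` they obey
`p_c(2,4) ≤ p_c(4,4) ≤ 3 p_c(2,4)`.  So the difference of the logarithms to base `n` tends to zero
and the gap asked for in Q2 fails for `d = 4`, `θ = 3`.
-/

set_option autoImplicit false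

open Filter Topology
open Pool.Agent.R958.Ham

namespace Pool.Agent.Results.MP_af82af_pr.NoGapDimFour

theorem result :
    (∀ n : ℕ, 1 ≤ n → (∃! p : ℝ, IsCritical n 4 3 2 p) ∧ ∃! q : ℝ, IsCritical n 4 3 4 q) ∧
    ∀ p q : ℕ → ℝ, (∀ n, 1 ≤ n → IsCritical n 4 3 2 (p n)) →
      (∀ n, 1 ≤ n → IsCritical n 4 3 4 (q n)) →
      (∀ᶠ n in atTop, 0 < p n ∧ p n ≤ q n ∧ q n ≤ 3 * p n) ∧
      Tendsto (fun n : ℕ => Real.logb n (q n) - Real.logb n (p n)) atTop (𝓝 0) ∧
      liminf (fun n : ℕ => Real.logb n (q n) - Real.logb n (p n)) atTop = 0 := by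
  refine ⟨fun n hn => ⟨?_, ?_⟩, fun p q hp hq => ?_⟩
  · obtain ⟨p, hp⟩ := exists_critical (n := n) (d := 4) (θ := 3) (i := 2) (by norm_num)
      (by norm_num) hn
    exact ⟨p, hp, fun r hr => Pool.Agent.K6.H74.Ham.crit_unique (by norm_num) hn hr hp⟩
  · obtain ⟨q, hq⟩ := exists_critical (n := n) (d := 4) (θ := 3) (i := 4) (by norm_num)
      le_rfl hn
    exact ⟨q, hq, fun r hr => Pool.Agent.K6.H74.Ham.crit_unique le_rfl hn hr hq⟩
  · have hcmp : ∀ᶠ n in atTop, 0 < p n ∧ p n ≤ q n ∧ q n ≤ 3 * p n := by
      filter_upwards [eventually_ge_atTop (10 ^ 15)] with n hn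
      have hn1 : 1 ≤ n := le_trans (by norm_num) hn
      exact Pool.Agent.K6.H74.Ham.crit_compare hn (hp n hn1) (hq n hn1)
    have hlim : Tendsto (fun n : ℕ => Real.logb n (q n) - Real.logb n (p n)) atTop (𝓝 0) := by
      have h0 : Tendsto (fun n : ℕ => Real.log 3 / Real.log n) atTop (𝓝 0) :=
        Tendsto.div_atTop tendsto_const_nhds
          (Real.tendsto_log_atTop.comp tendsto_natCast_atTop_atTop)
      refine tendsto_of_tendsto_of_tendsto_of_le_of_le' tendsto_const_nhds h0 ?_ ?_
      · filter_upwards [hcmp, eventually_ge_atTop 2] with n hn h2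
        obtain ⟨a, b, -⟩ := hn
        have hlog : 0 < Real.log n := Real.log_pos (by exact_mod_cast h2)
        have : Real.log (p n) ≤ Real.log (q n) := Real.log_le_log a b
        simp only [Real.logb]
        rw [← sub_div]
        exact div_nonneg (by linarith) hlog.le
      · filter_upwards [hcmp, eventually_ge_atTop 2] with n hn h2
        obtain ⟨a, b, c⟩ := hn
        have hlog : 0 < Real.log n := Real.log_pos (by exact_mod_cast h2)
        have h3 : Real.log (q n) ≤ Real.log 3 + Real.log (p n) := by
          rw [← Real.log_mul (by norm_num) a.ne']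
          exact Real.log_le_log (by linarith) c
        simp only [Real.logb]
        rw [← sub_div]
        exact div_le_div_of_nonneg_right (by linarith) hlog.le
    exact ⟨hcmp, hlim, hlim.liminf_eq⟩

end Pool.Agent.Results.MP_af82af_pr.NoGapDimFour
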